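import Pool.Agent.H65R2.AC.Hex3

set_option autoImplicit false

/-! Failure of minimal almost convexity, in the strongest possible form, for groups which retract
onto the direct product of two free groups of rank two. -/

namespace Pool.Agent.Y32.AC

open Pool.Agent.H65R2.AC

/-- For every odd radius `r` there are two points `x`, `y` of the sphere `S(r)` at distance `2`, such
that every path from `x` to `y` in the ball `B(r)` has length at least `2 r`.  (The path from `x` to
`y` through the identity which is composed of two shortest paths has length exactly `2 r`.) -/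
def Extremal {G : Type*} [Group G] (S : Set G) : Prop :=
  ∀ r : ℕ, Odd r → ∃ x y : G, wordLen S x = r ∧ wordLen S y = r ∧ wordLen S (x⁻¹ * y) = 2 ∧
    ∀ (n : ℕ) (p : ℕ → G), p 0 = x → p n = y → (∀ i < n, IsStep S ((p i)⁻¹ * p (i + 1))) →
      (∀ i ≤ n, wordLen S (p i) ≤ r) → 2 * r ≤ n

/-- The same for paths which are also allowed to stand still. -/
def ExtremalLazy {G : Type*} [Group G] (S : Set G) : Prop :=
  ∀ r : ℕ, Odd r → ∃ x y : G, wordLen S x = r ∧ wordLen S y = r ∧ wordLen S (x⁻¹ * y) = 2 ∧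
    ∀ (n : ℕ) (p : ℕ → G), p 0 = x → p n = y →
      (∀ i < n, (p i)⁻¹ * p (i + 1) = 1 ∨ IsStep S ((p i)⁻¹ * p (i + 1))) →
      (∀ i ≤ n, wordLen S (p i) ≤ r) → 2 * r ≤ n

theorem Extremal.not_almostConvex {G : Type*} [Group G] {S : Set G} (h : Extremal S) :
    ¬ AlmostConvex S := by
  rintro ⟨C, hC⟩
  obtain ⟨x, y, hx, hy, hxy, hp⟩ := h (2 * C + 1) ⟨C, rfl⟩
  obtain ⟨n, p, hn, h0, h1, h2, h3⟩ := hC (2 * C + 1) (by omega) x y hx hy hxy
  have := hp n p h0 h1 h2 h3
  omega

/-- The property passes from a retract `Q` to a finitely generated group `H`. -/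
theorem extremal_of_retract {Q H : Type*} [Group Q] [Group H] [Group.FG H]
    (ρ : H →* Q) (σ : Q →* H) (hρ : ∀ q, ρ (σ q) = q) (S : Set Q) (hSf : S.Finite)
    (hS : Subgroup.closure S = ⊤) (hN : ExtremalLazy S) :
    ∃ T : Set H, T.Finite ∧ Subgroup.closure T = ⊤ ∧ Extremal T := by
  obtain ⟨T₀, hT₀⟩ := (Group.fg_def.1 (inferInstance : Group.FG H))
  set K : Set H := (fun t => (σ (ρ t))⁻¹ * t) '' (T₀ : Set H) with hK
  set T : Set H := σ '' S ∪ K with hT
  have hKρ : ∀ k ∈ K, ρ k = 1 := by
    rintro _ ⟨t, -, rfl⟩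
    simp [hρ]
  have hσcl : ∀ q : Q, σ q ∈ Subgroup.closure T := by
    intro q
    have h1 : q ∈ Subgroup.closure S := by rw [hS]; exact Subgroup.mem_top q
    have h2 : σ q ∈ (Subgroup.closure S).map σ := ⟨q, h1, rfl⟩
    rw [MonoidHom.map_closure] at h2
    exact Subgroup.closure_mono Set.subset_union_left h2
  have hcl : Subgroup.closure T = ⊤ := by
    rw [eq_top_iff, ← hT₀, Subgroup.closure_le]
    intro t ht
    have h1 := hσcl (ρ t)
    have h2 : (σ (ρ t))⁻¹ * t ∈ Subgroup.closure T :=
      Subgroup.subset_closure (Or.inr ⟨t, ht, rfl⟩)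
    have h3 := Subgroup.mul_mem _ h1 h2
    simpa using h3
  have hstep : ∀ s, IsStep T s → ρ s = 1 ∨ IsStep S (ρ s) := by
    rintro s ((⟨q, hq, rfl⟩ | hk) | (⟨q, hq, hqs⟩ | hk))
    · right; left; rw [hρ]; exact hq
    · left; exact hKρ s hk
    · right; right
      rw [← map_inv, ← hqs, hρ]; exact hq
    · left
      have := hKρ _ hk
      rwa [map_inv, inv_eq_one] at this
  have hlen1 : ∀ h : H, wordLen S (ρ h) ≤ wordLen T h := by
    intro h
    obtain ⟨l, hl, hs, rfl⟩ := exists_word_len hcl h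
    rw [← hl]
    clear hl
    suffices h' : ∀ l : List H, (∀ s ∈ l, IsStep T s) → ∃ l' : List Q, l'.length ≤ l.length ∧
        (∀ s ∈ l', IsStep S s) ∧ l'.prod = ρ l.prod by
      obtain ⟨l', h1, h2, h3⟩ := h' l hs
      rw [← h3]
      exact (wordLen_le l' h2).trans h1
    intro l
    induction l with
    | nil => intro _; exact ⟨[], le_rfl, by simp, by simp⟩
    | cons a l ih =>
      intro hs
      obtain ⟨l', h1, h2, h3⟩ := ih (fun s hs' => hs s (List.mem_cons_of_mem _ hs'))
      rcases hstep a (hs a (by simp)) with h | h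
      · refine ⟨l', by simp; omega, h2, ?_⟩
        rw [List.prod_cons, map_mul, h, one_mul, h3]
      · refine ⟨ρ a :: l', by simpa using h1, ?_, ?_⟩
        · intro s hs'
          rcases List.mem_cons.1 hs' with rfl | h'
          · exact h
          · exact h2 s h'
        · rw [List.prod_cons, List.prod_cons, map_mul, h3]
  have hlen2 : ∀ q : Q, wordLen T (σ q) ≤ wordLen S q := by
    intro q
    obtain ⟨l, hl, hs, rfl⟩ := exists_word_len hS q
    rw [← hl, map_list_prod]
    refine (wordLen_le _ ?_).trans (by simp)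
    intro s hs'
    obtain ⟨a, ha, rfl⟩ := List.mem_map.1 hs'
    rcases hs a ha with h | h
    · left; left; exact ⟨a, h, rfl⟩
    · right; left; exact ⟨a⁻¹, h, by simp⟩
  have hlen : ∀ q : Q, wordLen T (σ q) = wordLen S q := by
    intro q
    refine le_antisymm (hlen2 q) ?_
    have := hlen1 (σ q)
    rwa [hρ] at this
  refine ⟨T, (hSf.image _).union (T₀.finite_toSet.image _), hcl, ?_⟩
  intro r hr
  obtain ⟨x, y, hx, hy, hxy, hno⟩ := hN r hr
  refine ⟨σ x, σ y, (hlen x).trans hx, (hlen y).trans hy, by rw [← map_inv, ← map_mul, hlen, hxy],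
    ?_⟩
  intro n p h0 h1 h2 h3
  refine hno n (fun i => ρ (p i)) (by rw [h0, hρ]) (by rw [h1, hρ]) ?_ ?_
  · intro i hi
    have := hstep _ (h2 i hi)
    rwa [map_mul, map_inv] at this
  · intro i hi
    exact (hlen1 (p i)).trans (h3 i hi)

namespace Free

open FreeGroup Pool.Agent.H65R2.AC.Free

/-- A path of `n` steps has length at least the distance of its ends. -/
theorem wordLen_path {G : Type*} [Group G] {S : Set G} (n : ℕ) (p : ℕ → G)
    (h : ∀ i < n, (p i)⁻¹ * p (i + 1) = 1 ∨ IsStep S ((p i)⁻¹ * p (i + 1))) :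
    ∀ i ≤ n, ∃ l : List G, l.length ≤ i ∧ (∀ s ∈ l, IsStep S s) ∧ l.prod = (p 0)⁻¹ * p i := by
  intro i
  induction i with
  | zero => intro _; exact ⟨[], le_rfl, by simp, by simp⟩
  | succ i ih =>
    intro hi
    obtain ⟨l, h1, h2, h3⟩ := ih (by omega)
    rcases h i (by omega) with h4 | h4
    · refine ⟨l, by omega, h2, ?_⟩
      rw [h3]
      rw [inv_mul_eq_one] at h4
      rw [h4]
    · refine ⟨l ++ [(p i)⁻¹ * p (i + 1)], by simp; omega, ?_, ?_⟩
      · intro s hs
        rcases List.mem_append.1 hs with h5 | h5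
        · exact h2 s h5
        · rw [List.mem_singleton.1 h5]; exact h4
      · rw [List.prod_append, List.prod_singleton, h3]
        group

theorem wordLen_le_path {G : Type*} [Group G] {S : Set G} (n : ℕ) (p : ℕ → G)
    (h : ∀ i < n, (p i)⁻¹ * p (i + 1) = 1 ∨ IsStep S ((p i)⁻¹ * p (i + 1))) (i : ℕ) (hi : i ≤ n) :
    wordLen S ((p 0)⁻¹ * p i) ≤ i := by
  obtain ⟨l, h1, h2, h3⟩ := wordLen_path n p h i hi
  rw [← h3]
  exact (wordLen_le l h2).trans h1

theorem wordLen_le_path' {G : Type*} [Group G] {S : Set G} (n : ℕ) (p : ℕ → G)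
    (h : ∀ i < n, (p i)⁻¹ * p (i + 1) = 1 ∨ IsStep S ((p i)⁻¹ * p (i + 1))) (i : ℕ) (hi : i ≤ n) :
    wordLen S ((p n)⁻¹ * p i) ≤ n - i := by
  have h1 : ∀ j < n, (p (n - j))⁻¹ * p (n - (j + 1)) = 1 ∨
      IsStep S ((p (n - j))⁻¹ * p (n - (j + 1))) := by
    intro j hj
    have h2 := h (n - (j + 1)) (by omega)
    have h3 : n - (j + 1) + 1 = n - j := by omega
    rw [h3] at h2
    rcases h2 with h2 | h2
    · left
      rw [inv_mul_eq_one] at h2 ⊢
      exact h2.symm
    · right
      have h4 := h2.inv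
      rw [mul_inv_rev, inv_inv] at h4
      exact h4
  have h2 := wordLen_le_path n (fun j => p (n - j)) h1 (n - i) (by omega)
  simp only [Nat.sub_zero] at h2
  have h3 : n - (n - i) = i := by omega
  rw [h3] at h2
  exact h2

theorem list_decomp {α : Type*} (x : α) (U : List α) : ∃ (V : List α) (k : ℕ),
    U = V ++ List.replicate k x ∧ V.getLast? ≠ some x := by
  classical
  induction U using List.reverseRecOn with
  | nil => exact ⟨[], 0, by simp, by simp⟩
  | append_singleton U y ih =>
    obtain ⟨V, k, h1, h2⟩ := ih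
    by_cases h : y = x
    · refine ⟨V, k + 1, ?_, h2⟩
      rw [h1, h, List.append_assoc, List.replicate_succ']
    · refine ⟨U ++ [y], 0, by simp, ?_⟩
      rw [List.getLast?_append_of_ne_nil _ (by simp)]
      simp [h]

theorem χ_pow (g : F) (k : ℕ) : χ (g ^ k) = k * χ g := by
  induction k with
  | zero => simp [χ_one]
  | succ k ih => rw [pow_succ, χ_mul, ih]; push_cast; ring

/-- The dichotomy in the tree. -/
theorem dichotomy (n : ℕ) (g : F) : 2 * (n : ℤ) + 2 ≤ g.norm + χ g ∨
    2 * (n : ℤ) + 1 ≤ ((a ^ (n + 1) * b ^ n)⁻¹ * g).norm + χ g := by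
  obtain ⟨V, k, h1, h2⟩ := list_decomp ((0 : Fin 2), false) (g⁻¹).toWord
  have h3 : g⁻¹ = FreeGroup.mk V * (a ^ k)⁻¹ := by
    rw [a_pow_eq, FreeGroup.mul_mk, ← h1, FreeGroup.mk_toWord]
  have h4 : g.norm = V.length + k := by
    rw [← FreeGroup.norm_inv_eq, FreeGroup.norm, h1, List.length_append, List.length_replicate]
  have h5 : χ g = k - χ (FreeGroup.mk V) := by
    have h6 : χ g = - χ g⁻¹ := by rw [χ_inv, neg_neg]
    rw [h6, h3, χ_mul, χ_inv, χ_pow, χ_a]
    ring
  have h6 := count_word V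
  by_cases hk : n + 1 ≤ k
  · left
    rw [h4, h5]
    push_cast
    have : (n : ℤ) + 1 ≤ k := by exact_mod_cast hk
    linarith
  · right
    have hk' : k ≤ n := by omega
    have hap : ∀ m : ℕ, a ^ m = FreeGroup.mk (List.replicate m ((0 : Fin 2), true)) := by
      intro m
      induction m with
      | zero => rfl
      | succ m ih => rw [pow_succ', ih, a, FreeGroup.of, FreeGroup.mul_mk]; rfl
    have hbp : ∀ m : ℕ, b ^ m = FreeGroup.mk (List.replicate m ((1 : Fin 2), true)) := by
      intro m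
      induction m with
      | zero => rfl
      | succ m ih => rw [pow_succ', ih, b, FreeGroup.of, FreeGroup.mul_mk]; rfl
    have h7 : ((a ^ (n + 1) * b ^ n)⁻¹ * g)⁻¹ = FreeGroup.mk
        (V ++ (List.replicate (n + 1 - k) ((0 : Fin 2), true)
          ++ List.replicate n ((1 : Fin 2), true))) := by
      rw [← FreeGroup.mul_mk, ← FreeGroup.mul_mk, ← hap, ← hbp, mul_inv_rev, inv_inv, h3]
      have h8 : a ^ (n + 1) = a ^ k * a ^ (n + 1 - k) := by
        rw [← pow_add]
        congr 1
        omega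
      rw [h8]
      group
    have hred : FreeGroup.IsReduced (V ++ (List.replicate (n + 1 - k) ((0 : Fin 2), true)
          ++ List.replicate n ((1 : Fin 2), true))) := by
      have hV : FreeGroup.IsReduced V := by
        have h9 : FreeGroup.IsReduced ((g⁻¹).toWord) := FreeGroup.isReduced_toWord
        rw [h1, FreeGroup.IsReduced, List.isChain_append] at h9
        exact h9.1
      rw [FreeGroup.IsReduced, List.isChain_append]
      refine ⟨hV, ?_, ?_⟩
      · rw [List.isChain_append]
        refine ⟨?_, ?_, ?_⟩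
        · apply List.isChain_replicate_of_rel
          simp
        · apply List.isChain_replicate_of_rel
          simp
        · intro x hx y hy hxy
          have h1 := List.mem_of_mem_getLast? hx
          have h2 := List.mem_of_mem_head? hy
          rw [List.eq_of_mem_replicate h1, List.eq_of_mem_replicate h2]
      · intro x hx y hy hxy
        have hy' : y = ((0 : Fin 2), true) := by
          rw [List.head?_append_of_ne_nil _ (by simp; omega)] at hy
          have h2 := List.mem_of_mem_head? hy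
          exact List.eq_of_mem_replicate h2
        subst hy'
        by_contra hne
        apply h2
        obtain ⟨x1, x2⟩ := x
        simp only at hxy hne
        subst hxy
        cases x2
        · exact hx
        · exact absurd rfl hne
    rw [← FreeGroup.norm_inv_eq, h7, FreeGroup.norm, FreeGroup.toWord_mk,
      FreeGroup.isReduced_iff_reduce_eq.1 hred, h5]
    simp only [List.length_append, List.length_replicate]
    have h8 : ((n + 1 - k : ℕ) : ℤ) = n + 1 - k := by
      rw [Nat.cast_sub (by omega)]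
      push_cast
      ring
    push_cast [h8]
    linarith

/-- The direct product of two free groups of rank two. -/
theorem extremalLazy : ExtremalLazy S := by
  rintro r ⟨m, rfl⟩
  refine ⟨X m a, X m b, len_eq m a (by simp [S]) (by simp [S]),
    len_eq m b (by simp [S]) (by simp [S]), dist_XY m, ?_⟩
  intro n p h0 h1 h2 hb
  have h3 : ∀ i < n, ((p i)⁻¹ * p (i + 1)).1.norm ≤ 1 ∧ ((p i)⁻¹ * p (i + 1)).2.norm ≤ 1 :=
    fun i hi => norm_of_isStep (h2 i hi)
  obtain ⟨i, hi, hi1⟩ := through_one (fun i => (p i).2) n (by show (p 0).2 = a; rw [h0]; rfl)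
    (by show (p n).2 = b; rw [h1]; rfl) (fun i hi => (h3 i hi).2)
  have hw : χ (a ^ (m + 1) * b ^ m) = 1 := by
    rw [χ_mul, χ_pow, χ_pow, χ_a, χ_b]
    push_cast
    ring
  set g := (p i).1 with hg
  have h4 : (g.norm : ℤ) + χ g ≤ 2 * m + 1 := by
    have h5 := bound2 (p i)
    rw [hi1, ε_one, sub_zero] at h5
    have h6 : (wordLen S (p i) : ℤ) ≤ 2 * m + 1 := by exact_mod_cast hb i hi
    linarith
  have h5 := (dichotomy m g).resolve_left (by linarith)
  have h6 : ((((a ^ (m + 1) * b ^ m)⁻¹ * g).norm : ℤ)) + χ g ≤ i := by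
    have h7 := wordLen_le_path n p h2 i hi
    have h8 := bound2 ((p 0)⁻¹ * p i)
    rw [h0] at h7 h8
    have h9 : ((X m a)⁻¹ * p i).1 = (a ^ (m + 1) * b ^ m)⁻¹ * g := rfl
    have h10 : ((X m a)⁻¹ * p i).2 = a⁻¹ * (p i).2 := rfl
    rw [h9, h10, hi1, mul_one, ε_inv, ε_a, χ_mul, χ_inv, hw] at h8
    have h11 : (wordLen S ((X m a)⁻¹ * p i) : ℤ) ≤ i := by exact_mod_cast h7
    linarith
  have h7 : ((((a ^ (m + 1) * b ^ m)⁻¹ * g).norm : ℤ)) + χ g ≤ n - i := by
    have h7 := wordLen_le_path' n p h2 i hi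
    have h8 := bound2 ((p n)⁻¹ * p i)
    rw [h1] at h7 h8
    have h9 : ((X m b)⁻¹ * p i).1 = (a ^ (m + 1) * b ^ m)⁻¹ * g := rfl
    have h10 : ((X m b)⁻¹ * p i).2 = b⁻¹ * (p i).2 := rfl
    rw [h9, h10, hi1, mul_one, ε_inv, ε_b, χ_mul, χ_inv, hw] at h8
    have h11 : (wordLen S ((X m b)⁻¹ * p i) : ℤ) ≤ n - i := by
      rw [← Nat.cast_sub hi]
      exact_mod_cast h7
    linarith
  have h8 : (2 * (2 * m + 1) : ℤ) ≤ n := by linarith
  exact_mod_cast h8

/-- Every finitely generated group which retracts onto the direct product of two free groups of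
rank two. -/
theorem exists_extremal {H : Type*} [Group H] [Group.FG H]
    (ρ : H →* F × F) (σ : F × F →* H) (hρ : ∀ q, ρ (σ q) = q) :
    ∃ T : Set H, T.Finite ∧ Subgroup.closure T = ⊤ ∧ Extremal T :=
  extremal_of_retract ρ σ hρ S finite_S closure_S extremalLazy

end Free

end Pool.Agent.Y32.AC
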