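import Pool.Agent.H65R2.AC.Act
import Pool.Agent.Y32.AC.Mac

set_option autoImplicit false
set_option maxSynthPendingDepth 3

/-! The product of two surface groups and a free abelian group acting on `ℝ^(k+4)`. -/

namespace Pool.Agent.Y32.AC.Hex

open scoped ContDiff Manifold Topology
open Pool.Agent.Helper831 Pool.Agent.H65R2.AC Pool.Agent.H65R2.AC.Hex

variable (k : ℕ)

/-- the flat factor of the model space -/
abbrev V : Type := EuclideanSpace ℝ (Fin k)

/-- the model space -/
abbrev En : Type := EuclideanSpace ℝ (Fin (k + 4))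

/-- the splitting of the model space -/
noncomputable def clen : En k ≃L[ℝ] E2 × E2 × V k :=
  ContinuousLinearEquiv.ofFinrankEq (by
    have h : Module.finrank ℝ E2 = 2 := by rw [Module.finrank_prod, Module.finrank_self]
    have h2 : Module.finrank ℝ (E2 × V k) = 2 + k := by
      rw [Module.finrank_prod (M := E2), h, finrank_euclideanSpace_fin]
    have h3 : Module.finrank ℝ (E2 × E2 × V k) = 2 + (2 + k) := by
      rw [Module.finrank_prod (M := E2), h, h2]
    rw [h3, finrank_euclideanSpace_fin]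
    omega)

/-- the product of two surface groups and a free abelian group -/
def GamN : Type := Γ₁ × Γ₁ × Multiplicative (Fin k → ℤ)

instance : Group (GamN k) := inferInstanceAs (Group (Γ₁ × Γ₁ × Multiplicative (Fin k → ℤ)))

variable {k}

/-- the translation vector -/
noncomputable def vec (z : Multiplicative (Fin k → ℤ)) : V k :=
  WithLp.toLp 2 (fun i => ((z.toAdd i : ℤ) : ℝ))

theorem vec_apply (z : Multiplicative (Fin k → ℤ)) (i : Fin k) : vec z i = ((z.toAdd i : ℤ) : ℝ) :=
  rfl

theorem vec_mul (z z' : Multiplicative (Fin k → ℤ)) : vec (z * z') = vec z + vec z' := by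
  ext i
  rw [PiLp.add_apply, vec_apply, vec_apply, vec_apply, toAdd_mul, Pi.add_apply]
  push_cast
  ring

theorem vec_one : vec (1 : Multiplicative (Fin k → ℤ)) = 0 := by
  ext i
  rw [vec_apply, toAdd_one, Pi.zero_apply]
  simp

theorem vec_eq_zero {z : Multiplicative (Fin k → ℤ)} (h : vec z = 0) : z = 1 := by
  have h1 : ∀ i, z.toAdd i = 0 := by
    intro i
    have h2 := congrArg (fun v : V k => v i) h
    simp only [vec_apply, PiLp.zero_apply] at h2
    exact_mod_cast h2
  have h2 : z.toAdd = 0 := funext h1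
  exact toAdd_eq_zero.1 h2

/-- the action on the product of the two planes and the flat factor -/
noncomputable def act (γ : GamN k) (y : En k) : En k :=
  (clen k).symm ((γ.1 : W) • (clen k y).1, (γ.2.1 : W) • (clen k y).2.1,
    vec γ.2.2 + (clen k y).2.2)

theorem clen_act (γ : GamN k) (y : En k) :
    clen k (act γ y) = ((γ.1 : W) • (clen k y).1, (γ.2.1 : W) • (clen k y).2.1,
      vec γ.2.2 + (clen k y).2.2) := by
  unfold act
  rw [ContinuousLinearEquiv.apply_symm_apply]

noncomputable instance : MulAction (GamN k) (En k) where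
  smul := act
  one_smul y := by
    show act 1 y = y
    apply (clen k).injective
    rw [clen_act]
    have h1 : ((1 : GamN k).1 : W) = 1 := rfl
    have h2 : ((1 : GamN k).2.1 : W) = 1 := rfl
    have h3 : (1 : GamN k).2.2 = 1 := rfl
    rw [h1, h2, h3, one_smul, one_smul, vec_one, zero_add]
  mul_smul γ δ y := by
    show act (γ * δ) y = act γ (act δ y)
    apply (clen k).injective
    rw [clen_act, clen_act, clen_act]
    have h1 : ((γ * δ : GamN k).1 : W) = γ.1 * δ.1 := rfl
    have h2 : ((γ * δ : GamN k).2.1 : W) = γ.2.1 * δ.2.1 := rfl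
    have h3 : (γ * δ : GamN k).2.2 = γ.2.2 * δ.2.2 := rfl
    rw [h1, h2, h3, mul_smul, mul_smul, vec_mul, add_assoc]

theorem clen_smul (γ : GamN k) (y : En k) :
    clen k (γ • y) = ((γ.1 : W) • (clen k y).1, (γ.2.1 : W) • (clen k y).2.1,
      vec γ.2.2 + (clen k y).2.2) := clen_act γ y

instance : SmoothConst (GamN k) (En k) where
  smooth γ := by
    have h : (fun y : En k => γ • y) = fun y =>
      (clen k).symm ((γ.1 : W) • (clen k y).1, (γ.2.1 : W) • (clen k y).2.1,
        vec γ.2.2 + (clen k y).2.2) := rfl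
    rw [h]
    refine (clen k).symm.contDiff.comp ?_
    exact ((contDiff_smul (γ.1 : W)).comp (contDiff_fst.comp (clen k).contDiff)).prodMk
      (((contDiff_smul (γ.2.1 : W)).comp
        (contDiff_fst.comp (contDiff_snd.comp (clen k).contDiff))).prodMk
        (contDiff_const.add (contDiff_snd.comp (contDiff_snd.comp (clen k).contDiff))))

instance : ContinuousConstSMul (GamN k) (En k) where
  continuous_const_smul γ := (SmoothConst.smooth (E := En k) γ).continuous

theorem GamN_free {γ : GamN k} {y : En k} (h : γ • y = y) : γ = 1 := by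
  have h1 := congrArg (clen k) h
  rw [clen_smul] at h1
  have h2 := congrArg Prod.fst h1
  have h3 := congrArg (fun p => p.2.1) h1
  have h3' := congrArg (fun p => p.2.2) h1
  simp only at h2 h3 h3'
  have h4 := free γ.1.2 h2
  have h5 := free γ.2.1.2 h3
  have h6 := vec_eq_zero (add_eq_right.1 h3')
  exact Prod.ext (Subtype.ext h4) (Prod.ext (Subtype.ext h5) h6)

instance : IsCancelSMul (GamN k) (En k) where
  right_cancel' γ δ y h := by
    have h1 : (δ⁻¹ * γ) • y = y := by rw [mul_smul, h, inv_smul_smul]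
    have h2 := GamN_free h1
    rw [inv_mul_eq_one] at h2
    exact h2.symm

theorem finite_GamN (R : ℝ) : {γ : GamN k | T ((γ.1 : W) • (0 : E2)) ≤ R ∧
    T ((γ.2.1 : W) • (0 : E2)) ≤ R ∧ ∀ i, |vec γ.2.2 i| ≤ R}.Finite := by
  have h1 : {γ : Γ₁ | T ((γ : W) • (0 : E2)) ≤ R}.Finite :=
    (finite_of_T_le R).preimage (Subtype.val_injective.injOn)
  have h2 : {z : Multiplicative (Fin k → ℤ) | ∀ i, |vec z i| ≤ R}.Finite := by
    have h3 : (Set.Icc (fun _ : Fin k => -⌈R⌉) (fun _ : Fin k => ⌈R⌉)).Finite := Set.finite_Icc _ _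
    refine (h3.preimage (f := fun z : Multiplicative (Fin k → ℤ) => z.toAdd)
      (Multiplicative.toAdd.injective.injOn)).subset ?_
    intro z hz
    have h4 : ∀ i, |((z.toAdd i : ℤ) : ℝ)| ≤ R := hz
    rw [Set.mem_preimage, Set.mem_Icc]
    constructor
    · intro i
      have h5 := (abs_le.1 (h4 i)).1
      have h6 : (-(⌈R⌉ : ℤ) : ℝ) ≤ z.toAdd i := by
        have := Int.le_ceil R
        linarith
      exact_mod_cast h6
    · intro i
      have h5 := (abs_le.1 (h4 i)).2
      have h6 : ((z.toAdd i : ℤ) : ℝ) ≤ (⌈R⌉ : ℤ) := h5.trans (Int.le_ceil R)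
      exact_mod_cast h6
  exact h1.prod (h1.prod h2)

instance : ProperlyDiscontinuousSMul (GamN k) (En k) where
  finite_disjoint_inter_image := by
    intro K L hK hL
    have hc1 : Continuous (fun y : En k => T (clen k y).1) :=
      contDiff_T.continuous.comp (continuous_fst.comp (clen k).continuous)
    have hc2 : Continuous (fun y : En k => T (clen k y).2.1) :=
      contDiff_T.continuous.comp (continuous_fst.comp (continuous_snd.comp (clen k).continuous))
    have hc3 : Continuous (fun y : En k => ‖(clen k y).2.2‖) :=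
      (continuous_snd.comp (continuous_snd.comp (clen k).continuous)).norm
    obtain ⟨A, hA⟩ := (hK.image hc1).bddAbove
    obtain ⟨B, hB⟩ := (hK.image hc2).bddAbove
    obtain ⟨A', hA'⟩ := (hK.image hc3).bddAbove
    obtain ⟨C, hC⟩ := (hL.image hc1).bddAbove
    obtain ⟨D, hD⟩ := (hL.image hc2).bddAbove
    obtain ⟨C', hC'⟩ := (hL.image hc3).bddAbove
    refine (finite_GamN (max (max (2 * C * A) (2 * D * B)) (A' + C'))).subset ?_
    rintro γ ⟨z, ⟨y, hy, rfl⟩, hz⟩
    have a1 : T (clen k y).1 ≤ A := hA ⟨y, hy, rfl⟩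
    have a2 : T (clen k y).2.1 ≤ B := hB ⟨y, hy, rfl⟩
    have a5 : ‖(clen k y).2.2‖ ≤ A' := hA' ⟨y, hy, rfl⟩
    have a3 : T (clen k (γ • y)).1 ≤ C := hC ⟨γ • y, hz, rfl⟩
    have a4 : T (clen k (γ • y)).2.1 ≤ D := hD ⟨γ • y, hz, rfl⟩
    have a6 : ‖(clen k (γ • y)).2.2‖ ≤ C' := hC' ⟨γ • y, hz, rfl⟩
    rw [clen_smul] at a3 a4 a6
    simp only at a3 a4 a6
    have b1 := T_smul_zero_le (γ.1 : W) (clen k y).1
    have b2 := T_smul_zero_le (γ.2.1 : W) (clen k y).2.1
    have p1 := T_pos ((γ.1 : W) • (clen k y).1)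
    have p2 := T_pos ((γ.2.1 : W) • (clen k y).2.1)
    have p3 := T_pos (clen k y).1
    have p4 := T_pos (clen k y).2.1
    refine ⟨b1.trans ((?_ : _ ≤ 2 * C * A).trans ((le_max_left _ _).trans (le_max_left _ _))),
      b2.trans ((?_ : _ ≤ 2 * D * B).trans ((le_max_right _ _).trans (le_max_left _ _))), ?_⟩
    · apply mul_le_mul _ a1 p3.le (by linarith)
      linarith
    · apply mul_le_mul _ a2 p4.le (by linarith)
      linarith
    · intro i
      have h1 : |vec γ.2.2 i| ≤ ‖vec γ.2.2‖ := by
        have := PiLp.norm_apply_le (vec γ.2.2) i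
        rwa [Real.norm_eq_abs] at this
      have h2 : ‖vec γ.2.2‖ ≤ A' + C' := by
        have h3 : vec γ.2.2 = (vec γ.2.2 + (clen k y).2.2) - (clen k y).2.2 := by abel
        rw [h3]
        have := norm_sub_le (vec γ.2.2 + (clen k y).2.2) (clen k y).2.2
        linarith
      exact h1.trans (h2.trans (le_max_right _ _))

variable (k)

/-- the closed manifold -/
abbrev Mn : Type := MulAction.orbitRel.Quotient (GamN k) (En k)

instance : CompactSpace (Mn k) := by
  obtain ⟨R, hR⟩ := cocompact
  have hK : IsCompact ((clen k).symm '' ({p : E2 | T p ≤ R} ×ˢ ({p : E2 | T p ≤ R} ×ˢ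
      (Metric.closedBall (0 : V k) (Real.sqrt k))))) :=
    ((isCompact_T_le R).prod ((isCompact_T_le R).prod
      (isCompact_closedBall _ _))).image (clen k).symm.continuous
  have hproj : Continuous (proj (GamN k) : En k → Mn k) := continuous_quot_mk
  have h2 : (proj (GamN k) : En k → Mn k) ''
      ((clen k).symm '' ({p : E2 | T p ≤ R} ×ˢ ({p : E2 | T p ≤ R} ×ˢ
      (Metric.closedBall (0 : V k) (Real.sqrt k))))) = Set.univ := by
    rw [Set.eq_univ_iff_forall]
    intro x
    obtain ⟨y, rfl⟩ := proj_surjective x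
    obtain ⟨γ, hγ, h3⟩ := hR (clen k y).1
    obtain ⟨δ, hδ, h4⟩ := hR (clen k y).2.1
    set z : Multiplicative (Fin k → ℤ) :=
      Multiplicative.ofAdd (fun i => -⌊(clen k y).2.2 i⌋) with hz
    set g : GamN k := (⟨γ, hγ⟩, ⟨δ, hδ⟩, z) with hg
    refine ⟨g • y, ⟨clen k (g • y), ?_, (clen k).symm_apply_apply _⟩, proj_smul g y⟩
    rw [clen_smul]
    refine ⟨h3, h4, ?_⟩
    rw [mem_closedBall_zero_iff, EuclideanSpace.norm_eq]
    apply Real.sqrt_le_sqrt
    have h5 : ∀ i : Fin k, ‖(vec z + (clen k y).2.2) i‖ ^ 2 ≤ 1 := by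
      intro i
      have h6 : (vec z + (clen k y).2.2) i = Int.fract ((clen k y).2.2 i) := by
        rw [PiLp.add_apply, vec_apply, hz, toAdd_ofAdd, Int.fract]
        push_cast
        ring
      rw [h6, Real.norm_eq_abs, abs_of_nonneg (Int.fract_nonneg _)]
      have h7 := Int.fract_nonneg ((clen k y).2.2 i)
      have h8 := (Int.fract_lt_one ((clen k y).2.2 i)).le
      nlinarith
    calc ∑ i : Fin k, ‖(vec z + (clen k y).2.2) i‖ ^ 2 ≤ ∑ _i : Fin k, (1 : ℝ) :=
          Finset.sum_le_sum fun i _ => h5 i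
      _ = k := by simp
  have h3 := hK.image hproj
  rw [h2] at h3
  exact isCompact_univ_iff.1 h3

instance : ConnectedSpace (Mn k) := by
  have h : Function.Surjective (proj (GamN k) : En k → Mn k) := proj_surjective
  exact h.connectedSpace continuous_quot_mk

instance : T2Space (Mn k) := inferInstance

theorem isManifold_Mn : IsManifold (𝓡 (k + 4)) ∞ (Mn k) := inferInstance

/-- The fundamental group of the manifold. -/
theorem exists_pi1_equiv (x : Mn k) :
    Nonempty (FundamentalGroup (Mn k) x ≃* Γ₁ × Γ₁ × Multiplicative (Fin k → ℤ)) := by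
  have hq : IsQuotientCoveringMap (Quotient.mk (MulAction.orbitRel (GamN k) (En k))) (GamN k) :=
    isQuotientCoveringMap_quotientMk_of_properlyDiscontinuousSMul
  obtain ⟨e, he⟩ := hq.surjective x
  have h1 : FundamentalGroup (Mn k) x ≃* (GamN k)ᵐᵒᵖ :=
    hq.fundamentalGroupEquiv (x := x) ⟨e, he⟩
  exact ⟨h1.trans (MulEquiv.inv' (GamN k)).symm⟩

/-- The fundamental group of the manifold is not minimally almost convex. -/
theorem exists_extremal_pi1 (x : Mn k) : ∃ S : Set (FundamentalGroup (Mn k) x),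
    S.Finite ∧ Subgroup.closure S = ⊤ ∧ Extremal S := by
  obtain ⟨e⟩ := exists_pi1_equiv k x
  have : Group.FG (Multiplicative (Fin k → ℤ)) := inferInstance
  have : Group.FG (FundamentalGroup (Mn k) x) :=
    Group.fg_of_surjective (f := e.symm.toMonoidHom) e.symm.surjective
  refine Free.exists_extremal
    ((((ρ₁.comp (MonoidHom.fst _ _)).prod
      (ρ₁.comp ((MonoidHom.fst _ _).comp (MonoidHom.snd _ _))))).comp e.toMonoidHom)
    (e.symm.toMonoidHom.comp ((σ₁.comp (MonoidHom.fst _ _)).prod
      ((σ₁.comp (MonoidHom.snd _ _)).prod 1))) ?_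
  rintro ⟨g, h⟩
  simp only [MonoidHom.comp_apply, MonoidHom.prod_apply, MulEquiv.coe_toMonoidHom,
    MulEquiv.apply_symm_apply, MonoidHom.coe_fst, MonoidHom.coe_snd, ρ₁_σ₁]

end Pool.Agent.Y32.AC.Hex
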