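import Pool.Agent.H65R2.AC.Main
import Pool.Agent.Y32.AC.ActN

set_option autoImplicit false
set_option maxSynthPendingDepth 3

/-! The Riemannian metric of the closed `(k+4)`-manifold and its curvature. -/

namespace Pool.Agent.Y32.AC.Hex

open scoped ContDiff Manifold Topology
open Pool.Agent.Helper831 Pool.Agent.H65R2.AC Pool.Agent.H65R2.AC.Hex Pool.Agent.H65R2.AC.Curv

variable (k : ℕ)

/-- first projection -/
noncomputable def q1 : En k →L[ℝ] E2 :=
  (ContinuousLinearMap.fst ℝ E2 (E2 × V k)).comp (clen k : En k →L[ℝ] E2 × E2 × V k)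
/-- second projection -/
noncomputable def q2 : En k →L[ℝ] E2 :=
  ((ContinuousLinearMap.fst ℝ E2 (V k)).comp (ContinuousLinearMap.snd ℝ E2 (E2 × V k))).comp
    (clen k : En k →L[ℝ] E2 × E2 × V k)
/-- third projection -/
noncomputable def q3 : En k →L[ℝ] V k :=
  ((ContinuousLinearMap.snd ℝ E2 (V k)).comp (ContinuousLinearMap.snd ℝ E2 (E2 × V k))).comp
    (clen k : En k →L[ℝ] E2 × E2 × V k)

variable {k}

theorem q1_apply (y : En k) : q1 k y = (clen k y).1 := rfl
theorem q2_apply (y : En k) : q2 k y = (clen k y).2.1 := rfl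
theorem q3_apply (y : En k) : q3 k y = (clen k y).2.2 := rfl

variable (k)

/-- the form of the first factor -/
noncomputable def J1 : En k →L[ℝ] En k →L[ℝ] ℝ := BBc.bilinearComp (q1 k) (q1 k)
/-- the form of the second factor -/
noncomputable def J2 : En k →L[ℝ] En k →L[ℝ] ℝ := BBc.bilinearComp (q2 k) (q2 k)
/-- the form of the flat factor -/
noncomputable def J3 : En k →L[ℝ] En k →L[ℝ] ℝ :=
  (innerSL ℝ : V k →L[ℝ] V k →L[ℝ] ℝ).bilinearComp (q3 k) (q3 k)

variable {k}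

theorem J1_apply (u v : En k) : J1 k u v = BB (q1 k u) (q1 k v) := by
  simp [J1, BBc_apply]
theorem J2_apply (u v : En k) : J2 k u v = BB (q2 k u) (q2 k v) := by
  simp [J2, BBc_apply]
theorem J3_apply (u v : En k) : J3 k u v = inner ℝ (q3 k u) (q3 k v) := by
  simp [J3]

theorem J1_symm (u v : En k) : J1 k u v = J1 k v u := by rw [J1_apply, J1_apply, BB_comm]
theorem J2_symm (u v : En k) : J2 k u v = J2 k v u := by rw [J2_apply, J2_apply, BB_comm]
theorem J3_symm (u v : En k) : J3 k u v = J3 k v u := by rw [J3_apply, J3_apply, real_inner_comm]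
theorem J1_nonneg (u : En k) : 0 ≤ J1 k u u := by rw [J1_apply, BB_self]; exact QQ_nonneg _
theorem J2_nonneg (u : En k) : 0 ≤ J2 k u u := by rw [J2_apply, BB_self]; exact QQ_nonneg _
theorem J3_nonneg (u : En k) : 0 ≤ J3 k u u := by rw [J3_apply]; exact real_inner_self_nonneg

variable (k)

/-- the projections of the model space -/
noncomputable def τ₁ : En k →L[ℝ] En k := ((clen k).symm : E2 × E2 × V k →L[ℝ] En k).comp
  ((ContinuousLinearMap.inl ℝ E2 (E2 × V k)).comp (q1 k))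
/-- the projections of the model space -/
noncomputable def τ₂ : En k →L[ℝ] En k := ((clen k).symm : E2 × E2 × V k →L[ℝ] En k).comp
  (((ContinuousLinearMap.inr ℝ E2 (E2 × V k)).comp (ContinuousLinearMap.inl ℝ E2 (V k))).comp (q2 k))

variable {k}

theorem q1_τ₁ (y : En k) : q1 k (τ₁ k y) = q1 k y := by simp [q1, τ₁]
theorem q1_τ₂ (y : En k) : q1 k (τ₂ k y) = 0 := by simp [q1, τ₂]
theorem q2_τ₁ (y : En k) : q2 k (τ₁ k y) = 0 := by simp [q2, τ₁]
theorem q2_τ₂ (y : En k) : q2 k (τ₂ k y) = q2 k y := by simp [q2, τ₂]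
theorem q3_τ₁ (y : En k) : q3 k (τ₁ k y) = 0 := by simp [q3, τ₁]
theorem q3_τ₂ (y : En k) : q3 k (τ₂ k y) = 0 := by simp [q3, τ₂]

theorem J1_τ₁ (x w : En k) : J1 k (τ₁ k x) w = J1 k x w := by rw [J1_apply, J1_apply, q1_τ₁]
theorem J1_τ₂ (x w : En k) : J1 k (τ₂ k x) w = 0 := by rw [J1_apply, q1_τ₂, BB_zero_left]
theorem J2_τ₁ (x w : En k) : J2 k (τ₁ k x) w = 0 := by rw [J2_apply, q2_τ₁, BB_zero_left]
theorem J2_τ₂ (x w : En k) : J2 k (τ₂ k x) w = J2 k x w := by rw [J2_apply, J2_apply, q2_τ₂]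
theorem J3_τ₁ (x w : En k) : J3 k (τ₁ k x) w = 0 := by rw [J3_apply, q3_τ₁, inner_zero_left]
theorem J3_τ₂ (x w : En k) : J3 k (τ₂ k x) w = 0 := by rw [J3_apply, q3_τ₂, inner_zero_left]

theorem gJ1_τ₁ (y x w : En k) : gK (J1 k) y (τ₁ k x) w = gK (J1 k) y x w := by
  rw [gK_apply, gK_apply, J1_τ₁, J1_symm y (τ₁ k x), J1_τ₁, J1_symm x y]
theorem gJ1_τ₂ (y x w : En k) : gK (J1 k) y (τ₂ k x) w = 0 := by
  rw [gK_apply, J1_τ₂, J1_symm y (τ₂ k x), J1_τ₂]; ring
theorem gJ2_τ₁ (y x w : En k) : gK (J2 k) y (τ₁ k x) w = 0 := by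
  rw [gK_apply, J2_τ₁, J2_symm y (τ₁ k x), J2_τ₁]; ring
theorem gJ2_τ₂ (y x w : En k) : gK (J2 k) y (τ₂ k x) w = gK (J2 k) y x w := by
  rw [gK_apply, gK_apply, J2_τ₂, J2_symm y (τ₂ k x), J2_τ₂, J2_symm x y]

/-- the metric on the model space: the product of two hyperbolic metrics and a flat one -/
noncomputable def Bn (y : En k) : En k →L[ℝ] En k →L[ℝ] ℝ :=
  gK (J1 k) y + gK (J2 k) y + J3 k

theorem Bn_apply (y u v : En k) :
    Bn y u v = gK (J1 k) y u v + gK (J2 k) y u v + J3 k u v := rfl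

theorem Bn_symm (y u v : En k) : Bn y u v = Bn y v u := by
  rw [Bn_apply, Bn_apply, gK_symm (J1 k) J1_symm, gK_symm (J2 k) J2_symm, J3_symm]

theorem Bn_pos (y u : En k) (hu : u ≠ 0) : 0 < Bn y u u := by
  rw [Bn_apply]
  have h1 := gK_ge (J1 k) J1_symm J1_nonneg y u
  have h2 := gK_ge (J2 k) J2_symm J2_nonneg y u
  have h3 := gK_nonneg (J1 k) J1_symm J1_nonneg y u
  have h4 := gK_nonneg (J2 k) J2_symm J2_nonneg y u
  have h0 := J3_nonneg u
  have hN1 := N_pos (J1 k) J1_nonneg y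
  have hN2 := N_pos (J2 k) J2_nonneg y
  by_cases h : q1 k u = 0
  · by_cases h' : q2 k u = 0
    · have h5 : q3 k u ≠ 0 := by
        intro h6
        apply hu
        apply (clen k).injective
        rw [map_zero]
        exact Prod.ext h (Prod.ext h' h6)
      have h6 : 0 < J3 k u u := by rw [J3_apply]; exact real_inner_self_pos.2 h5
      linarith
    · have h6 : 0 < J2 k u u := by rw [J2_apply, BB_self]; exact QQ_pos h'
      have h7 : 0 < J2 k u u / (1 + J2 k y y) := div_pos h6 hN2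
      linarith
  · have h6 : 0 < J1 k u u := by rw [J1_apply, BB_self]; exact QQ_pos h
    have h7 : 0 < J1 k u u / (1 + J1 k y y) := div_pos h6 hN1
    linarith

theorem contDiff_Bn : ContDiff ℝ ∞ (Bn (k := k)) := by
  unfold Bn
  exact ((contDiff_gK (J1 k) J1_nonneg).add (contDiff_gK (J2 k) J2_nonneg)).add contDiff_const

theorem gJ1_eq (y u v : En k) : gK (J1 k) y u v = g2 (q1 k y) (q1 k u) (q1 k v) := by
  rw [gK_apply, J1_apply, J1_apply, J1_apply, J1_apply, BB_self, g2]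
  ring
theorem gJ2_eq (y u v : En k) : gK (J2 k) y u v = g2 (q2 k y) (q2 k u) (q2 k v) := by
  rw [gK_apply, J2_apply, J2_apply, J2_apply, J2_apply, BB_self, g2]
  ring

theorem clen_fderiv (δ : GamN k) (y u : En k) : clen k (fderiv ℝ (fun z : En k => δ • z) y u) =
    (fderiv ℝ (fun q : E2 => (δ.1 : W) • q) (q1 k y) (q1 k u),
      fderiv ℝ (fun q : E2 => (δ.2.1 : W) • q) (q2 k y) (q2 k u), q3 k u) := by
  have hd : DifferentiableAt ℝ (fun z : En k => δ • z) y :=
    ((SmoothConst.smooth (E := En k) δ).differentiable (by simp)) y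
  have h1 : HasFDerivAt (fun z : En k => clen k (δ • z))
      ((clen k : En k →L[ℝ] E2 × E2 × V k).comp (fderiv ℝ (fun z : En k => δ • z) y)) y :=
    (clen k : En k →L[ℝ] E2 × E2 × V k).hasFDerivAt.comp y hd.hasFDerivAt
  have h2 : (fun z : En k => clen k (δ • z)) =
      fun z => ((δ.1 : W) • q1 k z, (δ.2.1 : W) • q2 k z, vec δ.2.2 + q3 k z) := by
    funext z
    exact clen_smul δ z
  have hd1 : HasFDerivAt (fun q : E2 => (δ.1 : W) • q)
      (fderiv ℝ (fun q : E2 => (δ.1 : W) • q) (q1 k y)) (q1 k y) :=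
    (((contDiff_smul (δ.1 : W)).differentiable (by simp)) _).hasFDerivAt
  have hd2 : HasFDerivAt (fun q : E2 => (δ.2.1 : W) • q)
      (fderiv ℝ (fun q : E2 => (δ.2.1 : W) • q) (q2 k y)) (q2 k y) :=
    (((contDiff_smul (δ.2.1 : W)).differentiable (by simp)) _).hasFDerivAt
  have hd3 : HasFDerivAt (fun z : En k => vec δ.2.2 + q3 k z) (q3 k) y :=
    (q3 k).hasFDerivAt.const_add _
  have h3 := (hd1.comp y (q1 k).hasFDerivAt).prodMk ((hd2.comp y (q2 k).hasFDerivAt).prodMk hd3)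
  rw [h2] at h1
  have h4 := h1.unique h3
  exact congrArg (fun L => L u) h4

theorem Bn_inv (δ : GamN k) (y u w : En k) : Bn (δ • y) (fderiv ℝ (fun z : En k => δ • z) y u)
    (fderiv ℝ (fun z : En k => δ • z) y w) = Bn y u w := by
  rw [Bn_apply, Bn_apply, gJ1_eq, gJ2_eq, gJ1_eq, gJ2_eq, J3_apply, J3_apply]
  have h1 : ∀ u : En k, q1 k (fderiv ℝ (fun z : En k => δ • z) y u)
      = fderiv ℝ (fun q : E2 => (δ.1 : W) • q) (q1 k y) (q1 k u) := by
    intro u
    rw [q1_apply (fderiv ℝ (fun z : En k => δ • z) y u), clen_fderiv]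
  have h2 : ∀ u : En k, q2 k (fderiv ℝ (fun z : En k => δ • z) y u)
      = fderiv ℝ (fun q : E2 => (δ.2.1 : W) • q) (q2 k y) (q2 k u) := by
    intro u
    rw [q2_apply (fderiv ℝ (fun z : En k => δ • z) y u), clen_fderiv]
  have h2' : ∀ u : En k, q3 k (fderiv ℝ (fun z : En k => δ • z) y u) = q3 k u := by
    intro u
    rw [q3_apply (fderiv ℝ (fun z : En k => δ • z) y u), clen_fderiv]
  have h3 : q1 k (δ • y) = (δ.1 : W) • q1 k y := by rw [q1_apply, clen_smul]; rfl
  have h4 : q2 k (δ • y) = (δ.2.1 : W) • q2 k y := by rw [q2_apply, clen_smul]; rfl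
  rw [h1, h1, h2, h2, h2', h2', h3, h4, g2_smul, g2_smul]

variable (k)

/-- the Riemannian metric of the closed manifold -/
noncomputable def gn : Metric (En k) (Mn k) := quotRM Bn Bn_symm Bn_pos contDiff_Bn Bn_inv

variable {k}

theorem comp_gn {e : OpenPartialHomeomorph (Mn k) (En k)} (he : e ∈ atlas (En k) (Mn k))
    (y u w : En k) : comp (gn k) e y u w = Bn y u w :=
  quotRM_comp Bn Bn_symm Bn_pos contDiff_Bn Bn_inv he y u w

/-- the Christoffel symbols -/
noncomputable def Cn (y u v : En k) : En k :=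
  -(gK (J1 k) y u v) • τ₁ k y - (gK (J2 k) y u v) • τ₂ k y

theorem gJ1_Cn (y u v w : En k) :
    gK (J1 k) y (Cn y u v) w = - gK (J1 k) y u v * (J1 k y w / (1 + J1 k y y)) := by
  unfold Cn
  rw [map_sub, map_smul, map_smul, sub_apply, smul_apply, smul_apply, gJ1_τ₁, gJ1_τ₂,
    gK_symm (J1 k) J1_symm y y w, gK_self (J1 k) J1_symm J1_nonneg]
  simp

theorem gJ2_Cn (y u v w : En k) :
    gK (J2 k) y (Cn y u v) w = - gK (J2 k) y u v * (J2 k y w / (1 + J2 k y y)) := by
  unfold Cn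
  rw [map_sub, map_smul, map_smul, sub_apply, smul_apply, smul_apply, gJ2_τ₁, gJ2_τ₂,
    gK_symm (J2 k) J2_symm y y w, gK_self (J2 k) J2_symm J2_nonneg]
  simp

theorem J3_Cn (y u v w : En k) : J3 k (Cn y u v) w = 0 := by
  unfold Cn
  rw [map_sub, map_smul, map_smul, sub_apply, smul_apply, smul_apply, J3_τ₁, J3_τ₂]
  simp

theorem fderiv_Bn (y v w u : En k) : fderiv ℝ (fun z => Bn z v w) y u
    = dg (J1 k) y u v w + dg (J2 k) y u v w := by
  have h : (fun z => Bn z v w) = fun z => (gK (J1 k) z v w + gK (J2 k) z v w) + J3 k v w := rfl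
  rw [h, fderiv_add_const, fderiv_fun_add (differentiable_gK (J1 k) J1_symm J1_nonneg y v w)
    (differentiable_gK (J2 k) J2_symm J2_nonneg y v w), add_apply,
    fderiv_gK (J1 k) J1_symm J1_nonneg, fderiv_gK (J2 k) J2_symm J2_nonneg]

theorem isChristoffel_Cn {e : OpenPartialHomeomorph (Mn k) (En k)}
    (he : e ∈ atlas (En k) (Mn k)) : IsChristoffel (gn k) e Cn := by
  constructor
  · intro u v
    apply ContDiff.contDiffOn
    unfold Cn
    have h1 : ContDiff ℝ ∞ (fun y => gK (J1 k) y u v) :=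
      ((contDiff_gK (J1 k) J1_nonneg).clm_apply contDiff_const).clm_apply contDiff_const
    have h2 : ContDiff ℝ ∞ (fun y => gK (J2 k) y u v) :=
      ((contDiff_gK (J2 k) J2_nonneg).clm_apply contDiff_const).clm_apply contDiff_const
    exact (h1.neg.smul (τ₁ k).contDiff).sub (h2.smul (τ₂ k).contDiff)
  · intro y _ u v w
    simp only [comp_gn he]
    rw [fderiv_Bn, fderiv_Bn, fderiv_Bn, Bn_apply, gJ1_Cn, gJ2_Cn, J3_Cn]
    have h1 := christoffel (J1 k) J1_symm J1_nonneg y u v w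
    have h2 := christoffel (J2 k) J2_symm J2_nonneg y u v w
    linarith

theorem fderiv_Cn (y v w u : En k) : fderiv ℝ (fun z => Cn z v w) y u
    = -(dg (J1 k) y u v w • τ₁ k y + gK (J1 k) y v w • τ₁ k u)
      - (dg (J2 k) y u v w • τ₂ k y + gK (J2 k) y v w • τ₂ k u) := by
  have a1 := (differentiable_gK (J1 k) J1_symm J1_nonneg y v w).hasFDerivAt
  have a2 := (differentiable_gK (J2 k) J2_symm J2_nonneg y v w).hasFDerivAt
  have b1 := (a1.smul ((τ₁ k).hasFDerivAt (x := y))).neg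
  have b2 := a2.smul ((τ₂ k).hasFDerivAt (x := y))
  have b3 := b1.sub b2
  have h : (fun z => Cn z v w) = fun z => -(gK (J1 k) z v w • τ₁ k z) - gK (J2 k) z v w • τ₂ k z := by
    funext z
    unfold Cn
    rw [neg_smul]
  rw [h]
  have b4 := b3.fderiv
  refine (congrArg (fun L => L u) b4).trans ?_
  simp only [sub_apply, neg_apply, add_apply, smul_apply, ContinuousLinearMap.smulRight_apply,
    fderiv_gK (J1 k) J1_symm J1_nonneg, fderiv_gK (J2 k) J2_symm J2_nonneg]
  abel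

theorem riem_Cn (y u v w : En k) : riem Cn y u v w =
    (gK (J1 k) y u w • τ₁ k v - gK (J1 k) y v w • τ₁ k u)
      + (gK (J2 k) y u w • τ₂ k v - gK (J2 k) y v w • τ₂ k u) := by
  unfold riem
  have h1 : ∀ u v w : En k, Cn y u (Cn y v w)
      = (gK (J1 k) y v w * (J1 k y u / (1 + J1 k y y))) • τ₁ k y
      + (gK (J2 k) y v w * (J2 k y u / (1 + J2 k y y))) • τ₂ k y := by
    intro u v w
    have h2 : Cn y u (Cn y v w) = -(gK (J1 k) y u (Cn y v w)) • τ₁ k y
      - (gK (J2 k) y u (Cn y v w)) • τ₂ k y := rfl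
    rw [h2, gK_symm (J1 k) J1_symm y u, gK_symm (J2 k) J2_symm y u, gJ1_Cn, gJ2_Cn]
    module
  rw [fderiv_Cn, fderiv_Cn, h1, h1]
  have e1 := curv (J1 k) J1_symm J1_nonneg y u v w
  have e2 := curv (J2 k) J2_symm J2_nonneg y u v w
  have e3 : (- dg (J1 k) y u v w + dg (J1 k) y v u w
      + gK (J1 k) y v w * (J1 k y u / (1 + J1 k y y))
      - gK (J1 k) y u w * (J1 k y v / (1 + J1 k y y))) • τ₁ k y = 0 := by rw [e1, zero_smul]
  have e4 : (- dg (J2 k) y u v w + dg (J2 k) y v u w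
      + gK (J2 k) y v w * (J2 k y u / (1 + J2 k y y))
      - gK (J2 k) y u w * (J2 k y v / (1 + J2 k y y))) • τ₂ k y = 0 := by rw [e2, zero_smul]
  rw [← sub_eq_zero]
  have e5 := congrArg₂ (· + ·) e3 e4
  simp only [add_zero] at e5
  rw [← e5]
  module

theorem Bn_riem (y u v : En k) : Bn y (riem Cn y u v v) u ≤ 0 := by
  rw [riem_Cn, Bn_apply]
  have h1 := gK_cs (J1 k) J1_symm J1_nonneg y u v
  have h2 := gK_cs (J2 k) J2_symm J2_nonneg y u v
  simp only [map_add, map_sub, map_smul, add_apply, sub_apply, smul_apply, smul_eq_mul,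
    gJ1_τ₁, gJ1_τ₂, gJ2_τ₁, gJ2_τ₂, J3_τ₁, J3_τ₂, mul_zero, add_zero, zero_add, sub_self]
  rw [gK_symm (J1 k) J1_symm y v u, gK_symm (J2 k) J2_symm y v u]
  nlinarith

theorem Bn_cs (y u v : En k) : Bn y u v ^ 2 ≤ Bn y u u * Bn y v v :=
  Curv.cs (Bn y) (Bn_symm y) (fun u => by
    rw [Bn_apply]
    exact add_nonneg (add_nonneg (gK_nonneg (J1 k) J1_symm J1_nonneg y u)
      (gK_nonneg (J2 k) J2_symm J2_nonneg y u)) (J3_nonneg u)) u v

/-- the metric has nonpositive curvature -/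
theorem nonposCurved_gn : NonposCurved (gn k) := by
  intro e he
  refine ⟨Cn, isChristoffel_Cn he, ?_⟩
  intro y _ u v _
  unfold sec
  simp only [comp_gn he]
  apply div_nonpos_of_nonpos_of_nonneg (Bn_riem y u v)
  have := Bn_cs y u v
  linarith

end Pool.Agent.Y32.AC.Hex
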